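import Pool.Agent.TH101.RG.FamU

set_option autoImplicit false

/-!
# Primes at which an arbitrary family of linear forms takes only composite values

For every family of linear forms `a x + b` with coefficients at most `X^D` and total weight
`∑ |a b| / φ(|a b|) ≤ c log X log log X` there are at least `X^(7/8)` primes `p ∈ (X, 3X]` (in every class of a fixed
squarefree modulus) at which no form of the family is a prime (or a bounded multiple of a prime). For instance, for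
every set `K` of positive integers `k ≤ X^D` with `∑ k / φ(k) ≤ c log X log log X`, all numbers `2 k p + 1`, `k ∈ K`,
are composite.

Proof: a greedy choice of nonzero classes of `p` modulo the primes up to `c log X` leaves `c log X` forms, which are
treated with the repelling weights of the starting files; the Bombieri-Vinogradov theorem counts the primes `p`.
-/

open Filter

namespace Pool.Agent.Results.MP_2f88e5_nt.ArbitraryFamilies

/-- For all `D`, `J` and squarefree `d` there is `c > 0` such that for all large `X`, all `h` prime to `d` and all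
finite sets `F` of pairs `(a, b)` of nonzero integers with `|a|, |b| ≤ X^D` and
`∑ |a b| / φ(|a b|) ≤ c log X log log X`: at least `X^(7/8)` primes `p ∈ (X, 3X]`, `p ≡ h (mod d)`, are such that
`j q ≠ a p + b` for all `(a, b) ∈ F`, all primes `q` and all integers `j` with `1 ≤ |j| ≤ J`. -/
theorem result (D J : ℕ) (d : ℕ) (hd : Squarefree d) : ∃ c : ℝ, 0 < c ∧ ∃ X₀ : ℝ, ∀ X : ℝ, X₀ ≤ X →
    ∀ h : ℕ, h.Coprime d → ∀ F : Finset (ℤ × ℤ),
    (∀ z ∈ F, z.1 ≠ 0 ∧ z.2 ≠ 0 ∧ |(z.1 : ℝ)| ≤ X ^ D ∧ |(z.2 : ℝ)| ≤ X ^ D) →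
    ∑ z ∈ F, ((z.1 * z.2).natAbs : ℝ) / ((z.1 * z.2).natAbs.totient : ℝ) ≤
      c * (Real.log X * Real.log (Real.log X)) →
    X ^ (7 / 8 : ℝ) ≤ ({p : ℕ | p.Prime ∧ X < p ∧ (p : ℝ) ≤ 3 * X ∧ p ≡ h [MOD d] ∧
      ∀ z ∈ F, ∀ j : ℤ, 1 ≤ |j| → |j| ≤ J → ∀ q : ℕ, q.Prime → j * q ≠ z.1 * p + z.2}.ncard : ℝ) := by
  obtain ⟨c, hc, hX⟩ := Pool.Agent.TH101.RG.family_forms D J d hd
  obtain ⟨X₀, hX₀⟩ := eventually_atTop.1 hX
  refine ⟨c, hc, X₀, fun X hXX h hh Z hZ hZw => ?_⟩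
  set S := {p : ℕ | p.Prime ∧ X < p ∧ (p : ℝ) ≤ 3 * X ∧ p ≡ h [MOD d] ∧
      ∀ z ∈ Z, ∀ j : ℤ, 1 ≤ |j| → |j| ≤ J → ∀ q : ℕ, q.Prime → j * q ≠ z.1 * p + z.2} with hS
  have hfin : S.Finite := by
    apply (Set.finite_Iic ⌊3 * X⌋₊).subset
    intro p hp
    exact Set.mem_Iic.2 (Nat.le_floor hp.2.2.1)
  by_contra hcon
  push Not at hcon
  rw [Set.ncard_eq_toFinset_card S hfin] at hcon
  obtain ⟨p, hp, hXp, hp3, hpb, hpd, hmain⟩ := hX₀ X hXX h hh Z hZ hZw hfin.toFinset hcon.le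
  apply hpb
  rw [Set.Finite.mem_toFinset]
  exact ⟨hp, hXp, hp3, hpd, hmain⟩

end Pool.Agent.Results.MP_2f88e5_nt.ArbitraryFamilies
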