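import Pool.Agent.TH464.PO.LinJoint

set_option autoImplicit false

/-!
# Almost primes `m` with `2 k m + 1` almost prime, uniformly in `k`: the joint law in several
windows

Let `m` be good if `m` has at most `r`, and `2 k m + 1` at most `(D + 1) r` prime factors, all
larger than `X ^ (1 / r)`. Let `V` be the product of `1 - ρ(p) / p` over the primes `p ≤ X ^ (1 /
r)`, `ρ(p)` the number of the bad residues. Given `θ > 0`, a number `w` of windows, a size `x` and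
an accuracy `ε`, for all `r ≥ r0` and all large `X`, uniformly in all `k` with `2 k ≤ X ^ D`, in
ALL intervals `(Z, Z + Y]` inside `[0, 2 X]` of length `Y ≥ X ^ θ` and for ALL disjoint windows
`(u_i, v_i]`, `i = 1, ..., w`, with `v_i V ≤ x`: the numbers of the good integers in the windows
`(n + u_i, n + v_i]`, for `n` in `(Z, Z + Y]`, are asymptotically independent Poisson variables of
means `(v_i - u_i) V`.
-/

namespace Pool.Agent.Results.MP_2f88e5_nt.JointWindows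

open Finset Filter

/-- `N` has at most `B` prime factors (with multiplicity), all of them larger than `z`. -/
def AlmostPrime (B : ℕ) (z : ℝ) (N : ℕ) : Prop :=
  N.primeFactorsList.length ≤ B ∧ ∀ p : ℕ, p.Prime → p ∣ N → z < (p : ℝ)

/-- `m` is good: `m` has at most `r`, and `2 k m + 1` at most `(D + 1) r` prime factors, all larger than
`X ^ (1 / r)`. -/
def Good (D r X k m : ℕ) : Prop :=
  AlmostPrime r ((X : ℝ) ^ (1 / (r : ℝ))) m ∧
    AlmostPrime ((D + 1) * r) ((X : ℝ) ^ (1 / (r : ℝ))) (2 * k * m + 1)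

open Classical in
/-- The sieve density: the product of `1 - ρ(p) / p` over the primes `p ≤ X ^ (1 / r)`, where `ρ(p)` is
the number of the `t` mod `p` with `p` dividing `t` or `2 k t + 1`. -/
noncomputable def V (r X k : ℕ) : ℝ :=
  ∏ p ∈ (Finset.range (⌊(X : ℝ) ^ (1 / (r : ℝ))⌋₊ + 1)).filter Nat.Prime,
    (1 - (((Finset.range p).filter (fun t : ℕ => p ∣ t ∨ p ∣ 2 * k * t + 1)).card : ℝ) / p)

open Classical in
/-- The number of the good `m` in `(u, v]`. -/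
noncomputable def N (D r X k : ℕ) (u v : ℕ) : ℕ :=
  ((Finset.Ioc u v).filter (fun m => Good D r X k m)).card

/-- The probability of `E` for the Poisson distribution of mean `x`. -/
noncomputable def Poi (x : ℝ) (E : Finset ℕ) : ℝ :=
  ∑ j ∈ E, Real.exp (-x) * x ^ j / j.factorial

open Pool.Agent.TH464.PO Pool.Agent.H373R2.T7 Pool.Agent.W123.RP

lemma adm_k (k : ℕ) (p : ℕ) (hp : p.Prime) :
    ∃ m : ℕ, ¬ p ∣ m ∧ ∀ _ : Fin 1, ¬ p ∣ 2 * k * m + 1 := by
  by_cases h : p ∣ 2 * k + 1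
  · refine ⟨2, ?_, fun _ h2 => ?_⟩
    · intro h2
      have h3 : p = 2 := (Nat.prime_dvd_prime_iff_eq hp Nat.prime_two).1 h2
      subst h3
      omega
    · have h3 : p ∣ 2 * (2 * k + 1) - (2 * k * 2 + 1) := Nat.dvd_sub (h.mul_left 2) h2
      have e : 2 * (2 * k + 1) - (2 * k * 2 + 1) = 1 := by omega
      rw [e] at h3
      exact hp.one_lt.ne' (Nat.dvd_one.1 h3)
  · refine ⟨1, ?_, fun _ h2 => ?_⟩
    · intro h2
      exact hp.one_lt.ne' (Nat.dvd_one.1 h2)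
    · rw [mul_one] at h2
      exact h h2

lemma fam (D : ℕ) (r : ℕ) (hr : 1 ≤ r) : ∀ᶠ X : ℕ in atTop, ∀ k : ℕ,
    (1 ≤ k ∧ 2 * k ≤ X ^ D) → ∃ u v : Fin (1 + 1) → ℤ,
      LF (1 + 1) u v (X ^ D) (Real.log X ^ (1 + 1 + 1)) ∧
      (∀ m ≤ 3 * X, Sf (QL u v) ⌊(X : ℝ) ^ (1 / (r : ℝ))⌋₊ m ↔ Good D r X k m) ∧
      Vq (QL u v) ⌊(X : ℝ) ^ (1 / (r : ℝ))⌋₊ = V r X k := by
  filter_upwards [ladder_fam 1 D le_rfl r hr] with X h k hk
  obtain ⟨h1, h2⟩ := h (fun _ => 2 * k) (fun _ => by omega) (fun _ => hk.2) (fun p hp => adm_k k p hp)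
  refine ⟨_, _, h1, fun m hm => (h2 m hm).trans ?_, V_nat (lu (fun _ => 2 * k)) (lv 1) _ (fun p m => ?_) _⟩
  · exact and_congr Iff.rfl ⟨fun h => h 0, fun h _ => h⟩
  · exact (l_ex (fun _ => 2 * k) (fun N => p ∣ N) m).trans
      (or_congr Iff.rfl ⟨fun h => h.choose_spec, fun h => ⟨0, h⟩⟩)

open Classical in
/-- **The joint law in several windows**, in all intervals. -/
theorem result (D : ℕ) (θ : ℝ) (hθ : 0 < θ) (w : ℕ) (x ε : ℝ) (hε : 0 < ε) :
    ∃ r0 : ℕ, ∀ r : ℕ, r0 ≤ r → ∀ᶠ X : ℕ in atTop, ∀ k : ℕ, 1 ≤ k → 2 * k ≤ X ^ D →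
      ∀ Z Y : ℕ, (X : ℝ) ^ θ ≤ Y →
      Z + Y ≤ 2 * X → ∀ u v : Fin w → ℕ, (∀ i, u i ≤ v i) → (∀ i, v i * V r X k ≤ x) →
      (∀ i j, i ≠ j → v i ≤ u j ∨ v j ≤ u i) → ∀ E : Fin w → Finset ℕ,
        |(((Finset.Ioc Z (Z + Y)).filter
            (fun n => ∀ i, N D r X k (n + u i) (n + v i) ∈ E i)).card : ℝ) -
          Y * ∏ i, Poi (((v i : ℝ) - u i) * V r X k) (E i)| ≤ ε * Y := by
  obtain ⟨r0, h⟩ := fam_joint (1 + 1) D (by omega) (fun X k => 1 ≤ k ∧ 2 * k ≤ X ^ D)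
    (fun r X k m => Good D r X k m) (fun r X k => V r X k) (fam D) θ hθ w x ε hε
  refine ⟨r0, fun r hr => ?_⟩
  filter_upwards [h r hr] with X hX k hk1 hk2
  exact hX k ⟨hk1, hk2⟩

end Pool.Agent.Results.MP_2f88e5_nt.JointWindows
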