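import Pool.Agent.TH101.RG.LPZ

set_option autoImplicit false

/-!
# Prime moduli `p` for which the classes of all small numbers contain no small prime

For many primes `p` the numbers `k p + b` are composite for all `1 ≤ |k| ≤ c f(p)` and all small `b ≠ 0`, `f` the
record scale `log x (log₂ x)² log₄ x / (log₃ x)²`. A prime `r ∤ b` divides `k p + b` if and only if
`k ≡ -b/p (mod r)`, and `-b/p` can be any nonzero class: the multipliers `k` are covered (`covZ`) by nonzero classes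
modulo the small primes except for `c log X` of them, which are left to the repelling weights of the starting files;
the Bombieri-Vinogradov theorem counts the primes `p`.
-/

open Filter

namespace Pool.Agent.Results.MP_2f88e5_nt.LeastPrimesModuloPrimes

/-- The record scale `f(x) = log x (log₂ x)² log₄ x / (log₃ x)²` (iterated natural logarithms). -/
noncomputable def f (x : ℝ) : ℝ :=
  Real.log x * (Real.log (Real.log x)) ^ 2 * Real.log (Real.log (Real.log (Real.log x))) /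
    (Real.log (Real.log (Real.log x))) ^ 2

/-- For all `D`, `J`, `A₀` and squarefree `d` there is `c > 0` such that for all large `X`, all integers `b ≠ 0`
with `|b| ≤ (log X)^D`, `|b| ≤ A₀ φ(|b|)`, and all `h` prime to `d`: at least `X^(9/10)` primes `p ∈ (X, 3X]`,
`p ≡ h (mod d)`, are such that `j q ≠ k p + i b` for all primes `q` and all integers `k`, `i`, `j` with
`1 ≤ |k| ≤ c f(X)`, `1 ≤ |i|, |j| ≤ J`. -/
theorem result (D J : ℕ) (A₀ : ℝ) (d : ℕ) (hd : Squarefree d) : ∃ c : ℝ, 0 < c ∧ ∃ X₀ : ℝ, ∀ X : ℝ, X₀ ≤ X →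
    ∀ b : ℤ, b ≠ 0 → |(b : ℝ)| ≤ (Real.log X) ^ D → |(b : ℝ)| ≤ A₀ * (b.natAbs.totient : ℝ) →
    ∀ h : ℕ, h.Coprime d →
    X ^ (9 / 10 : ℝ) ≤ ({p : ℕ | p.Prime ∧ X < p ∧ (p : ℝ) ≤ 3 * X ∧ p ≡ h [MOD d] ∧
      ∀ k i j : ℤ, k ≠ 0 → |(k : ℝ)| ≤ c * f X → 1 ≤ |i| → |i| ≤ J → 1 ≤ |j| → |j| ≤ J →
        ∀ q : ℕ, q.Prime → j * q ≠ k * p + i * b}.ncard : ℝ) := by
  obtain ⟨c, hc, hX⟩ := Pool.Agent.TH101.RG.least_primes D J A₀ d hd
  obtain ⟨X₀, hX₀⟩ := eventually_atTop.1 hX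
  refine ⟨c, hc, X₀, fun X hXX b hb hbD hbφ h hh => ?_⟩
  set S := {p : ℕ | p.Prime ∧ X < p ∧ (p : ℝ) ≤ 3 * X ∧ p ≡ h [MOD d] ∧
      ∀ k i j : ℤ, k ≠ 0 → |(k : ℝ)| ≤ c * f X → 1 ≤ |i| → |i| ≤ J → 1 ≤ |j| → |j| ≤ J →
        ∀ q : ℕ, q.Prime → j * q ≠ k * p + i * b} with hS
  have hfin : S.Finite := by
    apply (Set.finite_Iic ⌊3 * X⌋₊).subset
    intro p hp
    exact Set.mem_Iic.2 (Nat.le_floor hp.2.2.1)
  by_contra hcon
  push Not at hcon
  rw [Set.ncard_eq_toFinset_card S hfin] at hcon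
  obtain ⟨p, hp, hXp, hp3, hpb, hpd, hmain⟩ := hX₀ X hXX b hb hbD hbφ h hh hfin.toFinset hcon.le
  apply hpb
  rw [Set.Finite.mem_toFinset]
  exact ⟨hp, hXp, hp3, hpd, hmain⟩

end Pool.Agent.Results.MP_2f88e5_nt.LeastPrimesModuloPrimes
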